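import Pool.Agent.Helper65.LE.Pw
import Pool.Agent.Helper4.LE.Rt

/-!
PROJECT ALLQ, LT2 side: powers of the theta function over a number field.
-/

set_option autoImplicit false

namespace Pool.Agent.Helper65.LE

open Finset Pool.Agent.Helper34.LT LTG Pool.Agent.Helper34.LU Pool.Agent.Helper53.LE
open Pool.Agent.Helper13.LT (PS)

/-- powers -/
theorem th_pow (α : ℂ) (q : ℕ) (s : Finset ℕ) (ρ : ℕ → ℂ) (κ : s → ℂ) (c : Polynomial ℤ → ℂ)
    (f : (s → ℂ) → ℂ) (h : IsThA α q s ρ κ c f) (N : ℕ) (hN : 1 ≤ N) :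
    IsThA α q s ρ (fun u => (N : ℂ) * κ u) (fun P => (N : ℂ) * c P) (fun z => f z ^ N) :=
  th_pow_of α q s ρ κ c f h.toIsTh0 N hN (Pool.Agent.Helper4.LE.RTx_pow α f h.rta N)

end Pool.Agent.Helper65.LE
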