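import Pool.Agent.Helper53.LE.Df
import Pool.Agent.Helper65.LU.Pw

/-!
PROJECT ALLQ, LT2 side: powers of the theta function over a number field.
-/

set_option autoImplicit false

namespace Pool.Agent.Helper65.LE

open Finset Pool.Agent.Helper34.LT LTG Pool.Agent.Helper34.LU Pool.Agent.Helper53.LE
open Pool.Agent.Helper13.LT (PS)
open Pool.Agent.Helper65.LU (QPS_mul_pow QPS_pow)

private theorem imm_pow {s : Finset ℕ} {F G : (s → ℂ) → ℂ} (hF : Differentiable ℂ F)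
    (hG : Differentiable ℂ G) (v : s → ℂ) (h0 : G 0 ≠ 0)
    (h : fderiv ℂ F 0 v * G 0 ≠ F 0 * fderiv ℂ G 0 v) (M : ℕ) :
    fderiv ℂ (fun z => F z * G z ^ M) 0 v * (G 0 ^ (M + 1)) ≠
      (F 0 * G 0 ^ M) * fderiv ℂ (fun z => G z ^ (M + 1)) 0 v := by
  have h1 := (hF 0).hasFDerivAt
  have h2 := (hG 0).hasFDerivAt
  have h3 := h1.mul (h2.pow M)
  have h4 := h2.pow (M + 1)
  have e3 : fderiv ℂ (fun z => F z * G z ^ M) 0 v =
      F 0 * ((M : ℂ) * G 0 ^ (M - 1) * fderiv ℂ G 0 v) + G 0 ^ M * fderiv ℂ F 0 v := by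
    have : HasFDerivAt (fun z => F z * G z ^ M) _ 0 := h3
    rw [this.fderiv]
    simp
  have e4 : fderiv ℂ (fun z => G z ^ (M + 1)) 0 v = ((M : ℂ) + 1) * G 0 ^ M * fderiv ℂ G 0 v := by
    have : HasFDerivAt (fun z => G z ^ (M + 1)) _ 0 := h4
    rw [this.fderiv]
    simp
  rw [e3, e4]
  intro hc
  have h5 : (M : ℂ) * G 0 ^ (M - 1) * G 0 ^ (M + 1) = (M : ℂ) * G 0 ^ M * G 0 ^ M := by
    rcases Nat.eq_zero_or_pos M with h6 | h6
    · subst h6; simp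
    · obtain ⟨k, rfl⟩ := Nat.exists_eq_add_of_le' h6
      simp only [Nat.add_sub_cancel]
      ring
  have h7 : G 0 ^ M * G 0 ^ M * (fderiv ℂ F 0 v * G 0 - F 0 * fderiv ℂ G 0 v) = 0 := by
    linear_combination hc - (F 0 * fderiv ℂ G 0 v) * h5
  rcases mul_eq_zero.1 h7 with h8 | h8
  · exact mul_ne_zero (pow_ne_zero _ h0) (pow_ne_zero _ h0) h8
  · exact h (sub_eq_zero.1 h8)

theorem RTx.toPS {ι : Type} [Fintype ι] {α : ℂ} {f : (ι → ℂ) → ℂ} (h : RTx α f) :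
    ∃ a : (ι → ℕ) → ℂ, PS a f := by
  obtain ⟨d, B, D, _, _, A, _, _, h3⟩ := h
  exact ⟨_, h3⟩

/-- powers, the arithmetic of the power being given -/
theorem th_pow_of (α : ℂ) (q : ℕ) (s : Finset ℕ) (ρ : ℕ → ℂ) (κ : s → ℂ) (c : Polynomial ℤ → ℂ)
    (f : (s → ℂ) → ℂ) (h : IsTh0 q s ρ κ c f) (N : ℕ) (hN : 1 ≤ N)
    (hr : RTx α (fun z => f z ^ N)) :
    IsThA α q s ρ (fun u => (N : ℂ) * κ u) (fun P => (N : ℂ) * c P) (fun z => f z ^ N) := by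
  obtain ⟨M, rfl⟩ := Nat.exists_eq_add_of_le' hN
  refine ⟨⟨h.half, h.rho, fun u => ?_, h.diff.pow _, QPS_pow h.qp M, RTx.toPS hr, ?_, ?_,
    fun p => ?_, fun v hv => ?_⟩, hr⟩
  · exact mul_ne_zero (Nat.cast_ne_zero.2 (by omega)) (h.kap u)
  · obtain ⟨C, hC⟩ := h.growth
    refine ⟨(M + 1 : ℕ) * C, fun z => ?_⟩
    rw [norm_pow]
    refine (pow_le_pow_left₀ (norm_nonneg _) (hC z) _).trans (le_of_eq ?_)
    rw [← Real.exp_nat_mul]
    congr 1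
    ring
  · obtain ⟨z, hz⟩ := h.ne
    exact ⟨z, pow_ne_zero _ hz⟩
  · obtain ⟨F, hF, hQF, hp⟩ := h.bpf p
    exact ⟨fun z => F z ^ (M + 1), hF.pow _, QPS_pow hQF M, pow_ne_zero _ hp⟩
  · obtain ⟨F, G, hF, hG, hQF, hQG, hne⟩ := h.imm v hv
    by_cases h0 : G 0 = 0
    · have h1 : F 0 ≠ 0 := by
        intro h1
        apply hne
        rw [h0, h1, mul_zero, zero_mul]
      have h2 : fderiv ℂ G 0 v * F 0 ≠ G 0 * fderiv ℂ F 0 v := by
        intro h3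
        apply hne
        linear_combination -h3
      exact ⟨fun z => G z * F z ^ M, fun z => F z ^ (M + 1), hG.mul (hF.pow _), hF.pow _,
        QPS_mul_pow hQG hQF M, QPS_pow hQF M, imm_pow hG hF v h1 h2 M⟩
    · exact ⟨fun z => F z * G z ^ M, fun z => G z ^ (M + 1), hF.mul (hG.pow _), hG.pow _,
        QPS_mul_pow hQF hQG M, QPS_pow hQG M, imm_pow hF hG v h0 hne M⟩

end Pool.Agent.Helper65.LE
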